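import Pool.Agent.V5helper27.BM.GenU

set_option autoImplicit false

/-!
# MP_16b0ee_an: the strong Marshall conjecture is equivalent to Binder's conjecture, one function at a time

`L(R) = log (R² / (R² - 1))`, `h = log ψ'`, `|ψ'^t| = |exp (t h)|` for complex `t`.

For every `A > 0` the following are equivalent:

1. the bound of the question for all `a < A`, uniformly in `ψ` (`A = 1`: the question, the strong form of Marshall's
   conjecture);
2. the same for every single `ψ`;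
3. the same for every single `ψ` along some `R → 1+` (the lower limit is finite);
4. the same for every single `ψ`, every single direction `u`, `|u| = 1`, and `Re (u h)` in place of `h`, along some
   `R → 1+`;
5. growth exponent of the means of `|ψ'^t|` at most `|t|²/(4A)` for every single `ψ` and complex `|t| ≤ 2A` (`A = 1`: the
   upper bound of Binder's conjecture);
6. the same with the lower growth exponents;
7. the uniform bound `exp (C + C |t| √L) (R² / (R² - 1))^(|t|²/(4A))` of the means for all `R > 1` and complex `t`;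
8. the bound `exp (C / (A - a))` for the integral of the question, for all `0 < a < A` and all `R > 1`.

The proof. First (`Pool.Agent.V5helper27.BM.gen_all`): there is an absolute `C` such that, for every complex `t` and every
`β ≥ 0`, if the lower growth exponent of the means of `|ψ'^t|` is at most `β` for every single `ψ`, then they are at most
`exp (C (1 + |t| + |t| √L)) (R² / (R² - 1))^β` for all `R > 1` and all `ψ`. To see this let `k` be a conformal map of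
`|z| > 1` into itself whose image omits a disc about a point `z₀`, and which is smooth up to an arc. For `ψ₂ ∈ Σ` and
`M ≥ 2` put `g(z) = ((ψ₂(k(z^M)) - ψ₂(z₀)) / √2)^(1/M)`, and for `ψ₁ ∈ Σ` consider `ψ₁ ∘ (ρ g)`, `ρ = exp (A' / M)`, `A'`
absolute. By the Goluzin inequality for two points, `|log (g(z)/z)| ≤ C (1 + √L(|z|^M)) / M`, so on the circle
`|z| = exp (x/M)` the map `g` moves the points by `C √log(1/x) / M` only, and `h(z) = h₁(z) + h₂(k(z^M)) + O(1 + √log(1/x))`: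
the means of `|ψ'^t|` are supermultiplicative up to the factor `exp (- C - C |t| (1 + √log(1/x)))`. The infinite composition
with one `ψ₂` and `M = m, m², m³, ...` converges to one element of `Σ` whose means have, at all radii near 1, the exponent
of the means of `ψ₂` at the radius `exp (1/m)`, up to that loss. The loss is harmless in 7 and 8, by Gaussian averaging
over all complex `t`.
-/

namespace Pool.Agent.Results.MP_16b0ee_an.BinderEquivalence

open Pool.Agent.V5helper27.BM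

/-- The point `r e^{iθ}`. -/
noncomputable def circ (r θ : ℝ) : ℂ := (r : ℂ) * Complex.exp ((θ : ℂ) * Complex.I)

/-- `ψ ∈ Σ` and `h = log ψ'` (the branch vanishing at infinity), exactly as in the problem. -/
def IsSigma (ψ h : ℂ → ℂ) : Prop :=
  DifferentiableOn ℂ ψ {z : ℂ | 1 < ‖z‖} ∧
  Set.InjOn ψ {z : ℂ | 1 < ‖z‖} ∧
  (∃ b : ℂ, Filter.Tendsto (fun z => ψ z - z) (Bornology.cobounded ℂ) (nhds b)) ∧
  DifferentiableOn ℂ h {z : ℂ | 1 < ‖z‖} ∧
  (∀ z : ℂ, 1 < ‖z‖ → Complex.exp (h z) = deriv ψ z) ∧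
  Filter.Tendsto h (Bornology.cobounded ℂ) (nhds 0)

/-- `L = log (R² / (R² - 1))`. -/
noncomputable def L (R : ℝ) : ℝ := Real.log (R ^ 2 / (R ^ 2 - 1))

/-- The integral of Q1. -/
noncomputable def marshall (a R : ℝ) (h : ℂ → ℂ) : ℝ :=
  (1 / (2 * Real.pi)) * ∫ θ in (0:ℝ)..(2 * Real.pi), Real.exp (a * ‖h (circ R θ)‖ ^ 2 / L R)

/-- The integral of Q1 with the real part of `u h` in place of `h`. -/
noncomputable def marshallRe (a : ℝ) (u : ℂ) (R : ℝ) (h : ℂ → ℂ) : ℝ :=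
  (1 / (2 * Real.pi)) * ∫ θ in (0:ℝ)..(2 * Real.pi), Real.exp (a * (u * h (circ R θ)).re ^ 2 / L R)

/-- The mean of `|ψ'^t|`, `ψ'^t = exp (t h)`, over the circle `|z| = R`, `t` complex. -/
noncomputable def mean (t : ℂ) (R : ℝ) (h : ℂ → ℂ) : ℝ :=
  (1 / (2 * Real.pi)) * ∫ θ in (0:ℝ)..(2 * Real.pi), ‖Complex.exp (t * h (circ R θ))‖

/-- The growth exponent (limsup) of the mean of `|ψ'^t|` as `R → 1+` is at most `β`. -/
def Upper (t : ℂ) (β : ℝ) (h : ℂ → ℂ) : Prop := ∀ ε : ℝ, 0 < ε → ∃ K R₀ : ℝ, 1 < R₀ ∧ ∀ R : ℝ, 1 < R → R < R₀ →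
  mean t R h ≤ K * (R - 1) ^ (-(β + ε))

/-- The lower growth exponent (liminf) of the mean of `|ψ'^t|` as `R → 1+` is at most `β`. -/
def Lower (t : ℂ) (β : ℝ) (h : ℂ → ℂ) : Prop := ∀ ε : ℝ, 0 < ε → ∃ K : ℝ, ∀ R₀ : ℝ, 1 < R₀ → ∃ R : ℝ, 1 < R ∧ R < R₀ ∧
  mean t R h ≤ K * (R - 1) ^ (-(β + ε))

theorem result : ∀ A : ℝ, 0 < A → List.TFAE [
    (∀ a : ℝ, 0 < a → a < A → ∃ C R₀ : ℝ, 1 < R₀ ∧ ∀ R : ℝ, 1 < R → R < R₀ →
      ∀ ψ h : ℂ → ℂ, IsSigma ψ h → marshall a R h ≤ C),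
    (∀ a : ℝ, 0 < a → a < A → ∀ ψ h : ℂ → ℂ, IsSigma ψ h → ∃ C R₀ : ℝ, 1 < R₀ ∧
      ∀ R : ℝ, 1 < R → R < R₀ → marshall a R h ≤ C),
    (∀ a : ℝ, 0 < a → a < A → ∀ ψ h : ℂ → ℂ, IsSigma ψ h → ∃ C : ℝ, ∀ R₀ : ℝ, 1 < R₀ →
      ∃ R : ℝ, 1 < R ∧ R < R₀ ∧ marshall a R h ≤ C),
    (∀ a : ℝ, 0 < a → a < A → ∀ u : ℂ, ‖u‖ = 1 → ∀ ψ h : ℂ → ℂ, IsSigma ψ h → ∃ C : ℝ, ∀ R₀ : ℝ, 1 < R₀ →
      ∃ R : ℝ, 1 < R ∧ R < R₀ ∧ marshallRe a u R h ≤ C),
    (∀ t : ℂ, ‖t‖ ≤ 2 * A → ∀ ψ h : ℂ → ℂ, IsSigma ψ h → Upper t (‖t‖ ^ 2 / (4 * A)) h),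
    (∀ t : ℂ, ‖t‖ ≤ 2 * A → ∀ ψ h : ℂ → ℂ, IsSigma ψ h → Lower t (‖t‖ ^ 2 / (4 * A)) h),
    (∃ C : ℝ, ∀ R : ℝ, 1 < R → ∀ ψ h : ℂ → ℂ, IsSigma ψ h → ∀ t : ℂ,
      mean t R h ≤ Real.exp (C + C * ‖t‖ * Real.sqrt (L R)) * (R ^ 2 / (R ^ 2 - 1)) ^ (‖t‖ ^ 2 / (4 * A))),
    (∃ C : ℝ, ∀ a : ℝ, 0 < a → a < A → ∀ R : ℝ, 1 < R → ∀ ψ h : ℂ → ℂ, IsSigma ψ h →
      marshall a R h ≤ Real.exp (C / (A - a)))] :=
  fun _ hA => tfaeA' hA

end Pool.Agent.Results.MP_16b0ee_an.BinderEquivalence
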