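import Pool.Agent.V5helper73.GC.EXT

set_option autoImplicit false

/-!
# MP_16b0ee_an: the strong Marshall bound for the whole class `Σ` and all `0 < a < 1/2`

For every `ψ ∈ Σ` (nothing else is assumed), `h = log ψ'`, `L = log (R² / (R² - 1))`:

1. for `0 < a < 1/2` the integral of the question is bounded, uniformly in `R > 1` and `ψ ∈ Σ`;
2. for every `0 < a < 1` the part of the integral over the points with `|h| ≥ u L` is bounded, uniformly in `R > 1` and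
   `ψ ∈ Σ`, if `a (1 + √(1 - u²)) < 1` (recall `|h| ≤ L`; `u = 0` is part 1, and `u < 1` exists for every `a < 1`).

The proof. Let `f(z, ζ) = log ((ψ(z) - ψ(ζ)) / (z - ζ))`, so that `h(z) = f(z, z)`. Take `n` points `z_0, ..., z_{n-1}` of
the circle `|z| = R`, ordered by their arguments, at distances at least `R - 1`. The Grunsky inequality, applied to the
combinations of the `f(·, z_j)` with the coefficients `e^{ijt}`, and the orthogonality of the characters give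
`|∑ h(z_j)| ≤ (1/2π) ∫_0^{2π} √(P(t) P(-t)) dt`, `P(t) = ∑_{j,l} e^{i(j-l)t} log (1 / (1 - 1/(z_j conj z_l)))`, hence (by the
Cauchy-Schwarz inequality with the weights `1 ± (π - t)/π`) `|∑ h(z_j)|² ≤ (n L)² - y²`,
`y = (2/π) ∑_{l<j} Im log (1/(1 - 1/(z_l conj z_j))) / (j - l) ≥ n (log n - 20)`. So at most `exp (20 + √(L² - x²))` separated
points have `Re (e^{-iφ} h) ≥ x`, and the set of all such points of the circle has measure at most
`C exp (-(L - √(L² - x²)))`, for every real `φ` and `0 ≤ x ≤ L`.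
-/

namespace Pool.Agent.Results.MP_16b0ee_an.HalfOfTheRange

open MeasureTheory

/-- The point `r e^{iθ}`. -/
noncomputable def circ (r θ : ℝ) : ℂ := (r : ℂ) * Complex.exp ((θ : ℂ) * Complex.I)

/-- `ψ ∈ Σ` and `h = log ψ'` (the branch vanishing at infinity), exactly as in the problem. -/
def IsSigma (ψ h : ℂ → ℂ) : Prop :=
  DifferentiableOn ℂ ψ {z : ℂ | 1 < ‖z‖} ∧
  Set.InjOn ψ {z : ℂ | 1 < ‖z‖} ∧
  (∃ b : ℂ, Filter.Tendsto (fun z => ψ z - z) (Bornology.cobounded ℂ) (nhds b)) ∧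
  DifferentiableOn ℂ h {z : ℂ | 1 < ‖z‖} ∧
  (∀ z : ℂ, 1 < ‖z‖ → Complex.exp (h z) = deriv ψ z) ∧
  Filter.Tendsto h (Bornology.cobounded ℂ) (nhds 0)

/-- `L = log (R² / (R² - 1))`. -/
noncomputable def L (R : ℝ) : ℝ := Real.log (R ^ 2 / (R ^ 2 - 1))

/-- The integral of Q1. -/
noncomputable def marshall (a R : ℝ) (h : ℂ → ℂ) : ℝ :=
  (1 / (2 * Real.pi)) * ∫ θ in (0:ℝ)..(2 * Real.pi), Real.exp (a * ‖h (circ R θ)‖ ^ 2 / L R)

/-- The part of the integral of Q1 over the points of the circle where `|h| ≥ u L`. -/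
noncomputable def marshallTop (a u R : ℝ) (h : ℂ → ℂ) : ℝ :=
  (1 / (2 * Real.pi)) * ∫ θ in {θ : ℝ | θ ∈ Set.Ioc 0 (2 * Real.pi) ∧ u * L R ≤ ‖h (circ R θ)‖},
    Real.exp (a * ‖h (circ R θ)‖ ^ 2 / L R)

theorem top (a u : ℝ) (ha : 0 < a) (hu0 : 0 ≤ u) (hu1 : u ≤ 1) (hau : a * (1 + Real.sqrt (1 - u ^ 2)) < 1) :
    ∃ C : ℝ, ∀ R : ℝ, 1 < R → ∀ ψ h : ℂ → ℂ, IsSigma ψ h → marshallTop a u R h ≤ C := by
  obtain ⟨C₀, hC, ht⟩ := V5helper73.GC.tail_ext
  obtain ⟨K, hK⟩ := V5helper6.GC.t_TOP a u C₀ ha hu0 hu1 hC hau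
  refine ⟨(1 / (2 * Real.pi)) * K, fun R hR ψ h S => ?_⟩
  have S' : V5helper73.GC.IsSig ψ h := S
  have h1 := hK (L R) (fun θ => h (circ R θ)) (V5helper73.GC.LL_pos hR) (S'.cont hR) (fun θ => S'.gol hR θ)
    (fun φ x hx0 hx => ht R hR ψ h S' φ x hx0 hx)
  unfold marshallTop
  have := Real.pi_pos
  exact mul_le_mul_of_nonneg_left h1 (by positivity)

theorem result :
    (∀ a : ℝ, 0 < a → a < 1 / 2 →
      ∃ C : ℝ, ∀ R : ℝ, 1 < R → ∀ ψ h : ℂ → ℂ, IsSigma ψ h → marshall a R h ≤ C) ∧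
    (∀ a u : ℝ, 0 < a → 0 ≤ u → u ≤ 1 → a * (1 + Real.sqrt (1 - u ^ 2)) < 1 →
      ∃ C : ℝ, ∀ R : ℝ, 1 < R → ∀ ψ h : ℂ → ℂ, IsSigma ψ h → marshallTop a u R h ≤ C) := by
  refine ⟨fun a ha ha2 => ?_, top⟩
  obtain ⟨C, hC⟩ := top a 0 ha le_rfl zero_le_one (by norm_num; linarith)
  refine ⟨C, fun R hR ψ h S => le_trans (le_of_eq ?_) (hC R hR ψ h S)⟩
  have hpi := Real.pi_pos
  unfold marshall marshallTop
  rw [intervalIntegral.integral_of_le (by positivity)]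
  congr 2
  have : {θ : ℝ | θ ∈ Set.Ioc 0 (2 * Real.pi) ∧ 0 * L R ≤ ‖h (circ R θ)‖} = Set.Ioc 0 (2 * Real.pi) := by
    ext θ
    simp only [Set.mem_ofPred_eq, zero_mul, norm_nonneg, and_true]
  rw [this]

end Pool.Agent.Results.MP_16b0ee_an.HalfOfTheRange
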