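import Pool.Agent.V5helper73.SZ.SIG3
import Pool.Agent.V5helper61.SZ.CLA
import Pool.Agent.V5helper41.SZ.JM
import Pool.Agent.V5helper82.SZ.JMA
import Pool.Agent.V5helper82.SZ.ATT
import Pool.Agent.V5helper82.SZ.TREE
import Pool.Agent.V5helper67.SZ.AR
import Pool.Agent.V5helper40.SZ.SUMX
import Pool.Agent.V5helper40.SZ.HAR3
import Pool.Agent.V5helper24.SZ.CHAR2
import Pool.Agent.V5helper21.SZ.CNT
import Pool.Agent.V5helper12.SZ.GEO
import Pool.Agent.V5helper12.SZ.MEAN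
import Pool.Agent.V5helper27.SZ.HAR2
import Pool.Agent.V5helper27.SZ.LOGM
import Pool.Agent.V5helper19.SZ.KT
import Pool.Agent.V5helper19.SZ.TWO
import Pool.Agent.V5helper96.SZ.OMI
import Pool.Agent.V5helper96.SZ.B1

set_option autoImplicit false

/-!
# MP_16b0ee_an: integral means of `|ψ'|^t`, `3/4 < t ≤ 2`, and the Laurent coefficients

Q1 implies the growth exponents `t²/4` for the means of `|ψ'|^t`, `0 ≤ t ≤ 2`, uniformly on `Σ`; at `t = 1` this is the conjecture of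
Carleson and Jones (exponent `1/4`, the Laurent coefficients are `O(n^(-3/4+ε))`). Here: there is `η > 0` such that the exponent
`(3t - 1)/5 - η min (4t - 3, 2 - t)` holds for `3/4 < t ≤ 2` (`2/5 - η` at `t = 1`) and `|b_n| ≤ K n^(-3/5-η)`, uniformly on `Σ`.

The proof. (1) At most `exp (C + √(L² - x²))` separated points of a circle have `log |f'| ≥ x` (Grunsky's inequality at `n` points
tested with characters); for the means this is the exponent `√(1+t²) - 1`, so `1/4` at `t = 3/4`. (2) The area principle: for a bounded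
`f` at most `K ε^(-2)` points have `|f'| (1 - |z|²)` about `ε`; an estimate of Jones-Makarov type improves this to `K ε^(-2+η)`. (1) and (2)
give an exponent less than `2/5` for `t = 1` and bounded `f`. (3) Localization: `ψ = 1/f(1/z) + w` with `f ∈ S`, and `|f'| |f|^(-2)` is
summed over the leaves of the dyadic tree, each attached to the vertex of its path to `0` where `|f'| (1 - |z|²)`, weighted by a
small power, is largest; near this vertex `f` is like a bounded function. (4) Hölder's inequality between `3/4`, `1` and `2` (area theorem).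
-/

namespace Pool.Agent.Results.MP_16b0ee_an.MeansAndCoefficients

/-- The point `r e^{iθ}`. -/
noncomputable def circ (r θ : ℝ) : ℂ := (r : ℂ) * Complex.exp ((θ : ℂ) * Complex.I)

/-- `ψ ∈ Σ` and `h = log ψ'` (the branch vanishing at infinity), exactly as in the problem. -/
def IsSigma (ψ h : ℂ → ℂ) : Prop :=
  DifferentiableOn ℂ ψ {z : ℂ | 1 < ‖z‖} ∧
  Set.InjOn ψ {z : ℂ | 1 < ‖z‖} ∧
  (∃ b : ℂ, Filter.Tendsto (fun z => ψ z - z) (Bornology.cobounded ℂ) (nhds b)) ∧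
  DifferentiableOn ℂ h {z : ℂ | 1 < ‖z‖} ∧
  (∀ z : ℂ, 1 < ‖z‖ → Complex.exp (h z) = deriv ψ z) ∧
  Filter.Tendsto h (Bornology.cobounded ℂ) (nhds 0)

/-- The mean of `|ψ'|^t = exp (t Re h)` over the circle of radius `R`. -/
noncomputable def mean (t R : ℝ) (h : ℂ → ℂ) : ℝ :=
  (1 / (2 * Real.pi)) * ∫ θ in (0:ℝ)..(2 * Real.pi), Real.exp (t * (h (circ R θ)).re)

/-- `ψ(z) = z + ∑ b_n z^(-n)` for `|z| > 1`. -/
def IsLaurent (ψ : ℂ → ℂ) (b : ℕ → ℂ) : Prop :=
  ∀ z : ℂ, 1 < ‖z‖ → HasSum (fun n : ℕ => b n * (z⁻¹) ^ n) (ψ z - z)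

open V5helper73.SZ

theorem two : S_TWO := V5helper19.SZ.t_TWO V5helper19.SZ.t_KT
theorem tree : S_TREE := V5helper82.SZ.t_TREE V5helper19.SZ.t_KT two V5helper12.SZ.t_GEO
theorem har3 : S_HAR3 := V5helper40.SZ.H3.t_HAR3 (V5helper27.SZ.t_HAR2 V5helper27.SZ.t_LOGM)
theorem jm : S_JM := V5helper41.SZ.t_JM V5helper67.SZ.t_AR V5helper82.SZ.t_JMA
theorem b1 : S_B1 := V5helper96.SZ.t_B1 V5helper19.SZ.t_KT two V5helper12.SZ.t_GEO V5helper21.SZ.t_CNT har3 V5helper24.SZ.t_CHAR2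
  V5helper96.SZ.t_OMI
theorem sigm : S_SIGM := t_SIGM tree V5helper82.SZ.t_ATT (V5helper40.SZ.t_SUMX V5helper67.SZ.t_AR)
  (V5helper61.SZ.t_CLA tree V5helper67.SZ.t_AR jm b1) (V5helper12.SZ.t_MEAN V5helper19.SZ.t_KT two V5helper12.SZ.t_GEO)
theorem trs : S_TRS := V5helper86.SZ.t_TRS V5helper68.SZ.t_OMS

/-- There is `η > 0` such that, uniformly for `ψ ∈ Σ` and `R > 1`, the mean of `|ψ'|^t` is at most `K (R²/(R²-1))` to the power
`(3t-1)/5 - η min (4t-3, 2-t)` for `3/4 < t ≤ 2`, and the Laurent coefficients satisfy `|b_n| ≤ K n^(-3/5-η)`. -/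
theorem result : ∃ η : ℝ, 0 < η ∧
    (∀ t : ℝ, 3 / 4 < t → t ≤ 2 → ∃ K : ℝ, ∀ R : ℝ, 1 < R → ∀ ψ h : ℂ → ℂ, IsSigma ψ h →
      mean t R h ≤ K * (R ^ 2 / (R ^ 2 - 1)) ^ ((3 * t - 1) / 5 - η * min (4 * t - 3) (2 - t))) ∧
    (∃ K : ℝ, ∀ ψ h : ℂ → ℂ, IsSigma ψ h → ∀ b : ℕ → ℂ, IsLaurent ψ b →
      ∀ n : ℕ, 1 ≤ n → ‖b n‖ ≤ K * (n : ℝ) ^ (-(3 / 5) - η)) := by
  obtain ⟨η, hη, h1, K, hK, h2⟩ := mn_all trs sigm
  refine ⟨min η (1 / 100), by positivity, ?_, ⟨8 * (1 + 2 * K), ?_⟩⟩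
  · intro t ht ht2
    obtain ⟨K₁, h3⟩ := h1 t ht ht2
    refine ⟨|K₁|, fun R hR ψ h S => ?_⟩
    have hpos : 0 < R ^ 2 / (R ^ 2 - 1) := by
      have : 0 < R ^ 2 - 1 := by nlinarith
      positivity
    have h4 := h3 R hR ψ h S
    have hL := V5helper73.GC.LL_pos hR
    have hm : 0 ≤ min (4 * t - 3) (2 - t) := le_min (by linarith) (by linarith)
    have h5 : min η (1 / 100) * min (4 * t - 3) (2 - t) ≤ η * min (4 * t - 3) (2 - t) :=
      mul_le_mul_of_nonneg_right (min_le_left _ _) hm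
    rw [Real.rpow_def_of_pos hpos]
    change mean t R h ≤ |K₁| * Real.exp (V5helper73.GC.LL R * ((3 * t - 1) / 5 - min η (1 / 100) * min (4 * t - 3) (2 - t)))
    calc mean t R h ≤ K₁ * Real.exp (V5helper73.GC.LL R * ((3 * t - 1) / 5 - η * min (4 * t - 3) (2 - t))) := h4
      _ ≤ |K₁| * Real.exp (V5helper73.GC.LL R * ((3 * t - 1) / 5 - η * min (4 * t - 3) (2 - t))) :=
          mul_le_mul_of_nonneg_right (le_abs_self _) (Real.exp_pos _).le
      _ ≤ _ := by
          apply mul_le_mul_of_nonneg_left _ (abs_nonneg _)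
          apply Real.exp_le_exp.2
          apply mul_le_mul_of_nonneg_left _ hL.le
          linarith
  · intro ψ h S b hb n hn
    refine coeff_bound (by positivity) (min_le_right _ _) hK (fun R hR ψ h S => ?_) S hb hn
    refine (h2 R hR ψ h S).trans ?_
    apply mul_le_mul_of_nonneg_left _ hK
    apply Real.exp_le_exp.2
    apply mul_le_mul_of_nonneg_left _ (V5helper73.GC.LL_pos hR).le
    have := min_le_left η (1 / 100)
    linarith

end Pool.Agent.Results.MP_16b0ee_an.MeansAndCoefficients
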