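import Pool.Agent.V5helper73.GC.FAM

set_option autoImplicit false

/-!
# MP_16b0ee_an: the full range `a < 1` for the members `|s| ≤ 1/√2` of holomorphic families

Let `ψ_s`, `|s| < 1`, be maps of `Σ` depending holomorphically on `s`, with `ψ_0 = id + const`. By the theorem of Ahlfors and
Bers and the λ-lemma the maps of `Σ` with a `k`-quasiconformal extension to the plane are the maps `ψ_s`, `|s| = k`, of such
families. For `2 a k² < 1` the integral of the question is bounded, uniformly for all `R > 1`, all such families and all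
`|s| ≤ k`. So the full range `0 < a < 1` of the question holds for `k ≤ 1/√2 = 0.707...` (in the literature: `k (1 + 7k) ≤ 1`,
`k ≤ 0.313`, Hedenmalm; starting library: `k < 0.325`), and for every `k < 1` one has the bound for some `a > 1/2`.

The proof: Grunsky's inequality at `n` points tested with the characters `e^{ijt}` bounds `∑ h_s(z_j)` for every `s`; it is
holomorphic in `s` and vanishes at `s = 0`, so Schwarz's lemma gives the same bound for `∑ h_s(z_j)/k`, `|s| ≤ k`. Hence the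
tail bound `measure {Re (e^{-iφ} h_s / k) ≥ x} ≤ C exp (-(L - √(L² - x²)))`.
-/

namespace Pool.Agent.Results.MP_16b0ee_an.QuasiconformalFamilies

open MeasureTheory

/-- The point `r e^{iθ}`. -/
noncomputable def circ (r θ : ℝ) : ℂ := (r : ℂ) * Complex.exp ((θ : ℂ) * Complex.I)

/-- `ψ ∈ Σ` and `h = log ψ'` (the branch vanishing at infinity), exactly as in the problem. -/
def IsSigma (ψ h : ℂ → ℂ) : Prop :=
  DifferentiableOn ℂ ψ {z : ℂ | 1 < ‖z‖} ∧
  Set.InjOn ψ {z : ℂ | 1 < ‖z‖} ∧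
  (∃ b : ℂ, Filter.Tendsto (fun z => ψ z - z) (Bornology.cobounded ℂ) (nhds b)) ∧
  DifferentiableOn ℂ h {z : ℂ | 1 < ‖z‖} ∧
  (∀ z : ℂ, 1 < ‖z‖ → Complex.exp (h z) = deriv ψ z) ∧
  Filter.Tendsto h (Bornology.cobounded ℂ) (nhds 0)

/-- A holomorphic family of maps of `Σ` with parameter in the unit disc, through the identity (up to a translation). -/
def IsFamily (ψ h : ℂ → ℂ → ℂ) : Prop :=
  (∀ s : ℂ, ‖s‖ < 1 → IsSigma (ψ s) (h s)) ∧
  (∀ z : ℂ, 1 < ‖z‖ → DifferentiableOn ℂ (fun s => ψ s z) (Metric.ball 0 1)) ∧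
  ∃ b : ℂ, ∀ z : ℂ, 1 < ‖z‖ → ψ 0 z = z + b

/-- The integral of Q1. -/
noncomputable def marshall (a R : ℝ) (h : ℂ → ℂ) : ℝ :=
  (1 / (2 * Real.pi)) * ∫ θ in (0:ℝ)..(2 * Real.pi),
    Real.exp (a * ‖h (circ R θ)‖ ^ 2 / Real.log (R ^ 2 / (R ^ 2 - 1)))

theorem result :
    ∀ a k : ℝ, 0 < a → 0 < k → 2 * a * k ^ 2 < 1 →
      ∃ C : ℝ, ∀ ψ h : ℂ → ℂ → ℂ, IsFamily ψ h → ∀ s : ℂ, ‖s‖ < 1 → ‖s‖ ≤ k →
        ∀ R : ℝ, 1 < R → marshall a R (h s) ≤ C := by
  intro a k ha hk hak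
  obtain ⟨C₀, hC, ht⟩ := V5helper73.GC.tail_fam
  obtain ⟨K, hK⟩ := V5helper6.GC.t_TOP (a * k ^ 2) 0 C₀ (by positivity) le_rfl zero_le_one hC (by norm_num; linarith)
  refine ⟨(1 / (2 * Real.pi)) * K, fun ψ h F s hs hsk R hR => ?_⟩
  have hpi := Real.pi_pos
  obtain ⟨h1, h2, h3⟩ := ht ψ h F k hk s hs hsk R hR
  have h4 := hK (V5helper73.GC.LL R) (fun θ => h s (circ R θ) / k) (V5helper73.GC.LL_pos hR) h2 h1 h3
  unfold marshall
  refine mul_le_mul_of_nonneg_left (le_trans (le_of_eq ?_) h4) (by positivity)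
  rw [intervalIntegral.integral_of_le (by positivity)]
  have e1 : {θ : ℝ | θ ∈ Set.Ioc 0 (2 * Real.pi) ∧ 0 * V5helper73.GC.LL R ≤ ‖h s (circ R θ) / k‖} = Set.Ioc 0 (2 * Real.pi) := by
    ext θ
    simp only [Set.mem_ofPred_eq, zero_mul, norm_nonneg, and_true]
  rw [e1]
  congr 1
  ext θ
  congr 1
  rw [norm_div, Complex.norm_real, Real.norm_of_nonneg hk.le]
  have hL := V5helper73.GC.LL_pos hR
  unfold V5helper73.GC.LL at *
  field_simp

end Pool.Agent.Results.MP_16b0ee_an.QuasiconformalFamilies
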